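import Pool.Agent.U798.GP.Spec

/-!
# Project GQ, package CHEV (helper873): Chevalley's separation theorem for the group of p and q
-/

set_option autoImplicit false

open Pool.Agent.U798.GP

namespace Pool.Agent.U873.GP

/-- the power of a smooth number -/
theorem pow_smooth {B : ℕ} (hB : B ≠ 0) {r m : ℕ} {z : ZMod r} {v : ℕ → ℕ}
    (h : ∀ l ∈ B.primeFactors, (l : ZMod r) ^ m = z ^ v l) {u : ℕ} (hu : u ∈ Sm B) :
    (u : ZMod r) ^ m = z ^ (∑ l ∈ B.primeFactors, u.factorization l * v l) := by
  have hu0 : u ≠ 0 := by have := hu.1; omega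
  have hsub : u.factorization.support ⊆ B.primeFactors := by
    intro l hl
    rw [Nat.support_factorization, Nat.mem_primeFactors] at hl
    rw [Nat.mem_primeFactors]
    exact ⟨hl.1, hu.2 l hl.1 hl.2.1, hB⟩
  have h1 : u = ∏ l ∈ B.primeFactors, l ^ u.factorization l := by
    conv_lhs => rw [← Nat.prod_factorization_pow_eq_self hu0]
    exact Finsupp.prod_of_support_subset _ hsub _ (fun i _ => pow_zero i)
  conv_lhs => rw [h1]
  rw [Nat.cast_prod, ← Finset.prod_pow, ← Finset.prod_pow_eq_pow_sum]
  refine Finset.prod_congr rfl fun l hl => ?_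
  rw [Nat.cast_pow, ← pow_mul, mul_comm (u.factorization l) m, pow_mul, h l hl, ← pow_mul, mul_comm]

/-- factorization of smooth numbers away from `B` -/
theorem fac_zero {B : ℕ} (hB : B ≠ 0) {u : ℕ} (hu : u ∈ Sm B) {l : ℕ} (hl : l ∉ B.primeFactors) :
    u.factorization l = 0 := by
  by_contra h
  have h1 : l ∈ u.factorization.support := Finsupp.mem_support_iff.2 h
  rw [Nat.support_factorization, Nat.mem_primeFactors] at h1
  exact hl (Nat.mem_primeFactors.2 ⟨h1.1, hu.2 l h1.1 h1.2.1, hB⟩)

theorem t_CHEV : S_ALG → S_KUM → S_CHEV := by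
  intro hALG hKUM p q hp hq s hs t ht hst
  have hpq : p * q ≠ 0 := by positivity
  have hpS : p ∈ Sm (p * q) := ⟨by omega, fun l _ h => h.mul_right q⟩
  have hqS : q ∈ Sm (p * q) := ⟨by omega, fun l _ h => h.mul_left p⟩
  set P := (p * q).primeFactors with hP
  let e : P ≃ Fin P.card := P.equivFin
  set x : Fin P.card → ℤ := fun i => (p.factorization (e.symm i) : ℤ) with hx
  set y : Fin P.card → ℤ := fun i => (q.factorization (e.symm i) : ℤ) with hy
  set z : Fin P.card → ℤ := fun i => (s.factorization (e.symm i) : ℤ) -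
    (t.factorization (e.symm i) : ℤ) with hz
  have hzn : z ∉ AddSubgroup.closure {x, y} := by
    rw [AddSubgroup.mem_closure_pair]
    rintro ⟨i, j, hij⟩
    apply hst
    have hs0 : s ≠ 0 := by have := hs.1; omega
    have ht0 : t ≠ 0 := by have := ht.1; omega
    have hp0 : p ≠ 0 := by omega
    have hq0 : q ≠ 0 := by omega
    have key : s * p ^ (-i).toNat * q ^ (-j).toNat = t * p ^ i.toNat * q ^ j.toNat := by
      apply Nat.eq_of_factorization_eq (by positivity) (by positivity)
      intro l
      rw [Nat.factorization_mul (by positivity) (by positivity),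
        Nat.factorization_mul (by positivity) (by positivity),
        Nat.factorization_mul (by positivity) (by positivity),
        Nat.factorization_mul (by positivity) (by positivity),
        Nat.factorization_pow, Nat.factorization_pow, Nat.factorization_pow, Nat.factorization_pow]
      simp only [Finsupp.coe_add, Pi.add_apply, Finsupp.coe_smul, Pi.smul_apply, smul_eq_mul]
      by_cases hl : l ∈ P
      · have h1 := congrFun hij (e ⟨l, hl⟩)
        simp only [hx, hy, hz, Pi.add_apply, Pi.smul_apply, smul_eq_mul,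
          Equiv.symm_apply_apply] at h1
        zify
        rw [Int.ofNat_toNat i, Int.ofNat_toNat j, Int.ofNat_toNat (-i), Int.ofNat_toNat (-j)]
        have e1 : max (-i) 0 = max i 0 - i := by
          rcases le_total i 0 with h | h
          · rw [max_eq_left (by omega), max_eq_right h]; ring
          · rw [max_eq_right (by omega), max_eq_left h]; ring
        have e2 : max (-j) 0 = max j 0 - j := by
          rcases le_total j 0 with h | h
          · rw [max_eq_left (by omega), max_eq_right h]; ring
          · rw [max_eq_right (by omega), max_eq_left h]; ring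
        rw [e1, e2]
        linear_combination (-1 : ℤ) * h1
      · rw [fac_zero hpq hs hl, fac_zero hpq ht hl, fac_zero hpq hpS hl, fac_zero hpq hqS hl]
        simp
    exact ⟨(-i).toNat, (-j).toNat, i.toNat, j.toNat, by exact_mod_cast key⟩
  obtain ⟨M, v, hM, h1, h2, h3⟩ := hALG _ x y z hzn
  set v' : ℕ → ZMod M := fun l => if h : l ∈ P then v (e ⟨l, h⟩) else 0 with hv'
  obtain ⟨r, m, w, hr, hXr, hm, hord, hw⟩ := hKUM (p * q) M hM v'
  have := Fact.mk hr
  have hl : ∀ l ∈ (p * q).primeFactors, (l : ZMod r) ^ m = w ^ (fun l => (v' l).val) l := by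
    intro l hl
    rw [Nat.mem_primeFactors] at hl
    exact hw l hl.1 (Nat.le_of_dvd (by positivity) hl.2.1)
  have hw0 : w ≠ 0 := by
    rintro rfl
    have h4 : (0 : ZMod r) ^ M = 1 := by
      rw [← hord]
      exact pow_orderOf_eq_one _
    rw [zero_pow hM] at h4
    exact zero_ne_one h4
  have : NeZero M := ⟨hM⟩
  -- the exponents modulo `M`
  have hexp : ∀ u : ℕ, ((∑ l ∈ (p * q).primeFactors, u.factorization l * (fun l => (v' l).val) l :
      ℕ) : ZMod M) = ∑ i, ((u.factorization (e.symm i) : ℤ) : ZMod M) * v i := by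
    intro u
    push_cast
    simp only [ZMod.natCast_val, ZMod.cast_id', id]
    rw [← Finset.sum_coe_sort (p * q).primeFactors
      (fun l => (u.factorization l : ZMod M) * v' l)]
    refine Fintype.sum_equiv e _ _ fun l => ?_
    rw [Equiv.symm_apply_apply]
    congr 1
    simp only [hv']
    rw [dif_pos l.2]
  have hone : ∀ u ∈ Sm (p * q), (∑ i, ((u.factorization (e.symm i) : ℤ) : ZMod M) * v i) = 0 →
      (u : ZMod r) ^ m = 1 := by
    intro u hu h
    rw [pow_smooth hpq hl hu]
    apply orderOf_dvd_iff_pow_eq_one.1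
    rw [hord, ← ZMod.natCast_eq_zero_iff, hexp, h]
  refine ⟨r, m, hr, ?_, hm, hone p hpS h1, hone q hqS h2, ?_⟩
  · intro h
    exact absurd (Nat.le_of_dvd (by positivity) h) (by omega)
  · intro h
    rw [pow_smooth hpq hl hs, pow_smooth hpq hl ht] at h
    have h4 : (Units.mk0 w hw0) ^ (∑ l ∈ (p * q).primeFactors,
        s.factorization l * (fun l => (v' l).val) l) =
        (Units.mk0 w hw0) ^ (∑ l ∈ (p * q).primeFactors,
        t.factorization l * (fun l => (v' l).val) l) := by
      apply Units.ext
      rw [Units.val_pow_eq_pow_val, Units.val_pow_eq_pow_val, Units.val_mk0]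
      exact h
    rw [pow_eq_pow_iff_modEq] at h4
    have h5 : orderOf (Units.mk0 w hw0) = M := by
      rw [← orderOf_units, Units.val_mk0, hord]
    rw [h5, ← ZMod.natCast_eq_natCast_iff, hexp, hexp] at h4
    apply h3
    rw [← sub_eq_zero, ← Finset.sum_sub_distrib] at h4
    rw [← h4]
    refine Finset.sum_congr rfl fun i _ => ?_
    simp only [hz]
    push_cast
    ring

end Pool.Agent.U873.GP
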